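import Pool.Agent.Helper54.FP.Inst

/-!
# FP-16: the homomorphism `k[w]⟦t⟧[1/t,1/w] → L((t))`, `w ↦ t^a / (1 + y t^2)`
-/

set_option autoImplicit false
set_option linter.unusedSectionVars false

namespace Pool.Agent.Helper54.FP

open Finset

/-! ### generalities on `ext` -/

theorem homE2_ext_map {A B A' : Type} [CommRing A] [CommRing B] [CommRing A']
    (φ : A →+* PowerSeries B) (g : A' →+* A) (F : PowerSeries A') :
    ext φ (PowerSeries.map g F) = ext (φ.comp g) F := by
  ext n
  rw [coeff_ext, coeff_ext]
  rfl

theorem homE2_map_ext {A B B' : Type} [CommRing A] [CommRing B] [CommRing B']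
    (φ : A →+* PowerSeries B) (δ : B →+* B') (F : PowerSeries A) :
    PowerSeries.map δ (ext φ F) = ext ((PowerSeries.map δ).comp φ) F := by
  ext n
  rw [PowerSeries.coeff_map, coeff_ext, coeff_ext, map_sum]
  rfl

theorem homE2_ext_C_comp {A B : Type} [CommRing A] [CommRing B] (g : A →+* B)
    (F : PowerSeries A) : ext ((PowerSeries.C : B →+* PowerSeries B).comp g) F =
      PowerSeries.map g F := by
  ext n
  rw [coeff_ext, PowerSeries.coeff_map, Finset.sum_eq_single (n, 0)]
  · simp
  · rintro ⟨i, j⟩ hij hne
    rw [HasAntidiagonal.mem_antidiagonal] at hij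
    dsimp only at hij ⊢
    have : j ≠ 0 := by
      rintro rfl
      apply hne
      have : i = n := by omega
      rw [this]
    rw [RingHom.comp_apply, PowerSeries.coeff_C, if_neg this]
  · intro h
    exfalso
    apply h
    rw [HasAntidiagonal.mem_antidiagonal]
    dsimp only
    omega

/-! ### the substitution `Y ↦ y t^2` -/

section psi
variable {k L : Type} [CommRing k] [CommRing L] (ι : k →+* L) (y : L)

/-- coefficients of the substitution -/
noncomputable def homE2_f (f : PowerSeries k) : PowerSeries L :=
  PowerSeries.mk fun s => if 2 ∣ s then ι (PowerSeries.coeff (s / 2) f) * y ^ (s / 2) else 0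

/-- `f ↦ f (y t^2)` -/
noncomputable def homE2_psi : PowerSeries k →+* PowerSeries L where
  toFun := homE2_f ι y
  map_one' := by
    ext n
    rw [homE2_f, PowerSeries.coeff_mk, PowerSeries.coeff_one, PowerSeries.coeff_one]
    by_cases hn : n = 0
    · subst hn
      simp
    · rw [if_neg hn]
      split_ifs with h1 h2
      · omega
      · simp
      · rfl
  map_zero' := by
    ext n
    simp [homE2_f]
  map_add' F H := by
    ext n
    simp only [homE2_f, PowerSeries.coeff_mk, map_add]
    split_ifs
    · ring
    · simp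
  map_mul' F H := by
    ext n
    rw [PowerSeries.coeff_mul]
    simp only [homE2_f, PowerSeries.coeff_mk]
    by_cases hn : 2 ∣ n
    · obtain ⟨m, rfl⟩ := hn
      rw [if_pos (Dvd.intro m rfl), Nat.mul_div_cancel_left m two_pos, PowerSeries.coeff_mul,
        map_sum, Finset.sum_mul]
      have h1 : ∑ x ∈ antidiagonal (2 * m),
          (if 2 ∣ x.1 then ι (PowerSeries.coeff (x.1 / 2) F) * y ^ (x.1 / 2) else 0) *
          (if 2 ∣ x.2 then ι (PowerSeries.coeff (x.2 / 2) H) * y ^ (x.2 / 2) else 0) =
          ∑ x ∈ (antidiagonal (2 * m)).filter (fun x => 2 ∣ x.1),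
          (if 2 ∣ x.1 then ι (PowerSeries.coeff (x.1 / 2) F) * y ^ (x.1 / 2) else 0) *
          (if 2 ∣ x.2 then ι (PowerSeries.coeff (x.2 / 2) H) * y ^ (x.2 / 2) else 0) := by
        symm
        apply Finset.sum_filter_of_ne
        intro x _ hx
        by_contra h
        rw [if_neg h, zero_mul] at hx
        exact hx rfl
      rw [h1]
      refine Finset.sum_bij' (fun x _ => (2 * x.1, 2 * x.2)) (fun x _ => (x.1 / 2, x.2 / 2))
        ?_ ?_ ?_ ?_ ?_
      · rintro ⟨p, q⟩ h
        simp only [mem_filter, HasAntidiagonal.mem_antidiagonal] at h ⊢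
        exact ⟨by omega, Dvd.intro p rfl⟩
      · rintro ⟨p, q⟩ h
        simp only [mem_filter, HasAntidiagonal.mem_antidiagonal] at h ⊢
        omega
      · rintro ⟨p, q⟩ h
        simp
      · rintro ⟨p, q⟩ h
        simp only [mem_filter, HasAntidiagonal.mem_antidiagonal] at h
        simp only [Prod.mk.injEq]
        constructor <;> omega
      · rintro ⟨p, q⟩ h
        simp only [HasAntidiagonal.mem_antidiagonal] at h
        dsimp only
        rw [if_pos (Dvd.intro p rfl), if_pos (Dvd.intro q rfl), Nat.mul_div_cancel_left p two_pos,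
          Nat.mul_div_cancel_left q two_pos, map_mul, ← h, pow_add]
        ring
    · rw [if_neg hn]
      symm
      apply Finset.sum_eq_zero
      rintro ⟨p, q⟩ h
      rw [HasAntidiagonal.mem_antidiagonal] at h
      dsimp only at h ⊢
      by_cases hp : 2 ∣ p
      · have hq : ¬ 2 ∣ q := by omega
        rw [if_neg hq, mul_zero]
      · rw [if_neg hp, zero_mul]

theorem homE2_coeff_psi (f : PowerSeries k) (s : ℕ) : PowerSeries.coeff s (homE2_psi ι y f) =
    if 2 ∣ s then ι (PowerSeries.coeff (s / 2) f) * y ^ (s / 2) else 0 := by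
  change PowerSeries.coeff s (homE2_f ι y f) = _
  rw [homE2_f, PowerSeries.coeff_mk]

theorem homE2_psi_C (c : k) : homE2_psi ι y (PowerSeries.C c) = PowerSeries.C (ι c) := by
  ext s
  rw [homE2_coeff_psi, PowerSeries.coeff_C, PowerSeries.coeff_C]
  by_cases hs : s = 0
  · subst hs
    simp
  · rw [if_neg hs]
    split_ifs with h1 h2
    · omega
    · simp
    · rfl

theorem homE2_psi_X : homE2_psi ι y PowerSeries.X =
    PowerSeries.C y * PowerSeries.X ^ 2 := by
  ext s
  rw [homE2_coeff_psi, PowerSeries.coeff_X, PowerSeries.coeff_C_mul, PowerSeries.coeff_X_pow]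
  by_cases hs : s = 2
  · subst hs
    simp
  · rw [if_neg hs]
    split_ifs with h1 h2
    · omega
    · simp
    · simp

/-- The polynomial of the coefficient `n` of the image of `P`. -/
noncomputable def homE2_poly (P : PowerSeries (PowerSeries k)) (n : ℕ) : Polynomial k :=
  ∑ m ∈ Finset.range (n / 2 + 1),
    Polynomial.monomial m (PowerSeries.coeff m (PowerSeries.coeff (n - 2 * m) P))

theorem homE2_coeff_ext_psi (P : PowerSeries (PowerSeries k)) (n : ℕ) :
    PowerSeries.coeff n (ext (homE2_psi ι y) P) = (homE2_poly P n).eval₂ ι y := by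
  rw [coeff_ext, homE2_poly, Polynomial.eval₂_finsetSum]
  have h1 : ∑ ij ∈ antidiagonal n, PowerSeries.coeff ij.2
        (homE2_psi ι y (PowerSeries.coeff ij.1 P)) =
      ∑ ij ∈ (antidiagonal n).filter (fun ij => 2 ∣ ij.2), PowerSeries.coeff ij.2
        (homE2_psi ι y (PowerSeries.coeff ij.1 P)) := by
    symm
    apply Finset.sum_filter_of_ne
    intro x _ hx
    by_contra h
    rw [homE2_coeff_psi, if_neg h] at hx
    exact hx rfl
  rw [h1]
  refine Finset.sum_bij' (fun x _ => x.2 / 2) (fun m _ => (n - 2 * m, 2 * m)) ?_ ?_ ?_ ?_ ?_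
  · rintro ⟨p, q⟩ h
    simp only [mem_filter, HasAntidiagonal.mem_antidiagonal] at h
    simp only [Finset.mem_range]
    omega
  · intro m h
    simp only [Finset.mem_range] at h
    simp only [mem_filter, HasAntidiagonal.mem_antidiagonal]
    omega
  · rintro ⟨p, q⟩ h
    simp only [mem_filter, HasAntidiagonal.mem_antidiagonal] at h
    simp only [Prod.mk.injEq]
    omega
  · intro m h
    simp
  · rintro ⟨p, q⟩ h
    simp only [mem_filter, HasAntidiagonal.mem_antidiagonal] at h
    dsimp only
    rw [homE2_coeff_psi, if_pos h.2, Polynomial.eval₂_monomial]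
    have : n - 2 * (q / 2) = p := by omega
    rw [this]

theorem homE2_ext_psi_injective
    (hy : Function.Injective (Polynomial.eval₂RingHom ι y)) :
    Function.Injective (ext (homE2_psi ι y)) := by
  rw [injective_iff_map_eq_zero]
  intro P hP
  ext N m
  have h1 : homE2_poly P (N + 2 * m) = 0 := by
    apply hy
    rw [Polynomial.coe_eval₂RingHom, ← homE2_coeff_ext_psi, hP, map_zero, Polynomial.eval₂_zero]
  have h2 := congrArg (fun q => Polynomial.coeff q m) h1
  simp only [homE2_poly, Polynomial.finsetSum_coeff, Polynomial.coeff_monomial,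
    Polynomial.coeff_zero] at h2
  rw [Finset.sum_ite_eq' (Finset.range ((N + 2 * m) / 2 + 1)) m] at h2
  have h3 : m ∈ Finset.range ((N + 2 * m) / 2 + 1) := by
    rw [Finset.mem_range]
    omega
  rw [if_pos h3] at h2
  have h4 : N + 2 * m - 2 * m = N := by omega
  rw [h4] at h2
  rw [h2]
  simp

end psi

/-! ### the map `w ↦ t^a u` -/

section E
variable {k : Type} [Field k]

/-- `1 / (1 + Y)` -/
noncomputable def homE2_u (k : Type) [Field k] : PowerSeries k := (1 + PowerSeries.X)⁻¹

theorem homE2_u_mul : homE2_u k * (1 + PowerSeries.X) = 1 := by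
  unfold homE2_u
  apply PowerSeries.inv_mul_cancel
  simp

theorem homE2_eval_u_injective :
    Function.Injective (Polynomial.eval₂RingHom (PowerSeries.C : k →+* PowerSeries k)
      (homE2_u k)) := by
  rw [injective_iff_map_eq_zero]
  intro Q hQ
  rw [Polynomial.coe_eval₂RingHom] at hQ
  letI : Invertible (homE2_u k) :=
    { invOf := 1 + PowerSeries.X
      invOf_mul_self := by rw [mul_comm]; exact homE2_u_mul
      mul_invOf_self := homE2_u_mul }
  have h1 : Polynomial.eval₂ (PowerSeries.C : k →+* PowerSeries k) (1 + PowerSeries.X)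
      Q.reverse = 0 :=
    (Polynomial.eval₂_reverse_eq_zero_iff (PowerSeries.C : k →+* PowerSeries k)
      (homE2_u k) Q).2 hQ
  have h2 : (((Q.reverse).comp (1 + Polynomial.X) : Polynomial k) : PowerSeries k) = 0 := by
    rw [← h1]
    have h3 : ∀ P : Polynomial k, ((P : Polynomial k) : PowerSeries k) =
        Polynomial.coeToPowerSeries.ringHom P := fun P => rfl
    rw [h3, Polynomial.comp, Polynomial.hom_eval₂]
    congr 1
    · ext c
      simp
    · simp
  have h4 : (Q.reverse).comp (1 + Polynomial.X) = 0 := by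
    apply Polynomial.coe_injective k
    rw [h2, Polynomial.coe_zero]
  have h5 : Q.reverse = 0 := by
    apply Polynomial.taylor_injective (1 : k)
    rw [map_zero, Polynomial.taylor_apply]
    rw [← h4, map_one, add_comm]
  exact Polynomial.reverse_eq_zero.1 h5

/-- `k[w] → k⟦Y⟧⟦t⟧`, `w ↦ t^a / (1 + Y)` -/
noncomputable def homE2_phi (k : Type) [Field k] (a : ℕ) :
    Polynomial k →+* PowerSeries (PowerSeries k) :=
  Polynomial.eval₂RingHom ((PowerSeries.C).comp (PowerSeries.C : k →+* PowerSeries k))
    (PowerSeries.X ^ a * PowerSeries.C (homE2_u k))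

theorem homE2_coeff_phi {a : ℕ} (q : Polynomial k) (s : ℕ) :
    PowerSeries.coeff s (homE2_phi k a q) =
      ∑ j ∈ Finset.range (q.natDegree + 1), if s = a * j then
        PowerSeries.C (q.coeff j) * homE2_u k ^ j else 0 := by
  rw [homE2_phi, Polynomial.coe_eval₂RingHom, Polynomial.eval₂_eq_sum_range, map_sum]
  apply Finset.sum_congr rfl
  intro j _
  rw [RingHom.comp_apply, PowerSeries.coeff_C_mul, mul_pow, ← pow_mul, ← map_pow, mul_comm
    (PowerSeries.X ^ (a * j)), PowerSeries.coeff_C_mul, PowerSeries.coeff_X_pow]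
  split_ifs
  · ring
  · ring

/-- the polynomial of the coefficient `N` -/
noncomputable def homE2_Q (a : ℕ) (F : Pk k) (N : ℕ) : Polynomial k :=
  ∑ j ∈ Finset.range (N + 1), if a * j ≤ N then
    Polynomial.monomial j ((PowerSeries.coeff (N - a * j) F).coeff j) else 0

theorem homE2_coeff_E {a : ℕ} (ha : 0 < a) (F : Pk k) (N : ℕ) :
    PowerSeries.coeff N (ext (homE2_phi k a) F) =
      (homE2_Q a F N).eval₂ PowerSeries.C (homE2_u k) := by
  rw [coeff_ext, homE2_Q, Polynomial.eval₂_finsetSum]
  have h1 : ∀ ij ∈ antidiagonal N, PowerSeries.coeff ij.2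
      (homE2_phi k a (PowerSeries.coeff ij.1 F)) =
      ∑ j ∈ Finset.range (N + 1), if ij.2 = a * j then
        PowerSeries.C ((PowerSeries.coeff ij.1 F).coeff j) * homE2_u k ^ j else 0 := by
    rintro ⟨p, s⟩ h
    rw [HasAntidiagonal.mem_antidiagonal] at h
    dsimp only at h ⊢
    rw [homE2_coeff_phi]
    -- both sums are equal to the sum over a large range
    set q := PowerSeries.coeff p F with hq
    have h2 : ∀ K, q.natDegree + 1 ≤ K → N + 1 ≤ K →
        (∑ j ∈ Finset.range (q.natDegree + 1), if s = a * j then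
          PowerSeries.C (q.coeff j) * homE2_u k ^ j else 0) =
        ∑ j ∈ Finset.range K, if s = a * j then
          PowerSeries.C (q.coeff j) * homE2_u k ^ j else 0 := by
      intro K hK1 hK2
      apply Finset.sum_subset (Finset.range_mono hK1)
      intro j _ hj
      rw [Finset.mem_range, not_lt] at hj
      have : q.coeff j = 0 := Polynomial.coeff_eq_zero_of_natDegree_lt (by omega)
      rw [this]
      simp
    have h3 : ∀ K, q.natDegree + 1 ≤ K → N + 1 ≤ K →
        (∑ j ∈ Finset.range (N + 1), if s = a * j then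
          PowerSeries.C (q.coeff j) * homE2_u k ^ j else 0) =
        ∑ j ∈ Finset.range K, if s = a * j then
          PowerSeries.C (q.coeff j) * homE2_u k ^ j else 0 := by
      intro K hK1 hK2
      apply Finset.sum_subset (Finset.range_mono hK2)
      intro j _ hj
      rw [Finset.mem_range, not_lt] at hj
      rw [if_neg]
      intro hs
      have : j ≤ a * j := Nat.le_mul_of_pos_left j ha
      omega
    rw [h2 (max (q.natDegree + 1) (N + 1)) (le_max_left _ _) (le_max_right _ _),
      h3 (max (q.natDegree + 1) (N + 1)) (le_max_left _ _) (le_max_right _ _)]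
  rw [Finset.sum_congr rfl h1, Finset.sum_comm]
  apply Finset.sum_congr rfl
  intro j _
  by_cases hj : a * j ≤ N
  · rw [if_pos hj, Polynomial.eval₂_monomial, Finset.sum_eq_single (N - a * j, a * j)]
    · simp
    · rintro ⟨p, s⟩ h hne
      rw [HasAntidiagonal.mem_antidiagonal] at h
      dsimp only at h ⊢
      rw [if_neg]
      rintro rfl
      apply hne
      have : p = N - a * j := by omega
      rw [this]
    · intro h
      exfalso
      apply h
      rw [HasAntidiagonal.mem_antidiagonal]
      dsimp only
      omega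
  · rw [if_neg hj, Polynomial.eval₂_zero]
    apply Finset.sum_eq_zero
    rintro ⟨p, s⟩ h
    rw [HasAntidiagonal.mem_antidiagonal] at h
    dsimp only at h ⊢
    rw [if_neg]
    rintro rfl
    omega

theorem homE2_E_injective {a : ℕ} (ha : 0 < a) : Function.Injective (ext (homE2_phi k a)) := by
  rw [injective_iff_map_eq_zero]
  intro F hF
  ext i j
  have h1 : homE2_Q a F (i + a * j) = 0 := by
    apply homE2_eval_u_injective
    rw [Polynomial.coe_eval₂RingHom, ← homE2_coeff_E ha, hF, map_zero, Polynomial.eval₂_zero]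
  have h2 := congrArg (fun q => Polynomial.coeff q j) h1
  simp only [homE2_Q, Polynomial.finsetSum_coeff, Polynomial.coeff_zero] at h2
  rw [Finset.sum_eq_single j] at h2
  · rw [if_pos (Nat.le_add_left _ _), Polynomial.coeff_monomial, if_pos rfl,
      Nat.add_sub_cancel] at h2
    rw [h2]
    simp
  · intro j' _ hne
    split_ifs
    · rw [Polynomial.coeff_monomial, if_neg hne]
    · simp
  · intro h
    exfalso
    apply h
    rw [Finset.mem_range]
    have : j ≤ a * j := Nat.le_mul_of_pos_left j ha
    omega

end E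

theorem exists_e2 {k L : Type} [Field k] [Field L] (ι : k →+* L) (y : L)
    (hy : Function.Injective (Polynomial.eval₂RingHom ι y)) (a : ℕ) (ha : 0 < a) :
    ∃ e : R2 k →+* LaurentSeries L, Function.Injective e ∧ e.comp (c2 k) = lm ι ∧
      e (w2 k) * (1 + HahnSeries.C y * HahnSeries.single 1 1 ^ 2) = HahnSeries.single 1 1 ^ a ∧
      ∀ δ : L →+* L, δ.comp ι = ι → δ y = y → (lm δ).comp e = e := by
  set e0 : Pk k →+* PowerSeries L := (ext (homE2_psi ι y)).comp (ext (homE2_phi k a)) with he0
  have he0inj : Function.Injective e0 :=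
    (homE2_ext_psi_injective ι y hy).comp (homE2_E_injective ha)
  have hX : e0 PowerSeries.X = PowerSeries.X := by
    rw [he0, RingHom.comp_apply, ext_X, ext_X]
  have hw : e0 (PowerSeries.C Polynomial.X) * (1 + PowerSeries.C y * PowerSeries.X ^ 2) =
      PowerSeries.X ^ a := by
    have h1 : (1 + PowerSeries.C y * PowerSeries.X ^ 2 : PowerSeries L) =
        homE2_psi ι y (1 + PowerSeries.X) := by
      rw [map_add, map_one, homE2_psi_X]
    rw [he0, RingHom.comp_apply, ext_C, homE2_phi, Polynomial.coe_eval₂RingHom,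
      Polynomial.eval₂_X, map_mul, map_pow, ext_X, ext_C, h1, mul_assoc, ← map_mul, homE2_u_mul,
      map_one, mul_one]
  have hg : IsUnit (((algebraMap (PowerSeries L) (LaurentSeries L)).comp e0)
      (PowerSeries.X * PowerSeries.C Polynomial.X)) := by
    rw [isUnit_iff_ne_zero]
    intro h
    have h1 : Function.Injective (algebraMap (PowerSeries L) (LaurentSeries L)) :=
      IsFractionRing.injective _ _
    rw [RingHom.comp_apply] at h
    have h2 := he0inj ((h1 (h.trans (map_zero _).symm)).trans (map_zero _).symm)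
    exact XCX_ne_zero k h2
  set e : R2 k →+* LaurentSeries L :=
    IsLocalization.Away.lift (PowerSeries.X * PowerSeries.C Polynomial.X : Pk k)
      (g := (algebraMap (PowerSeries L) (LaurentSeries L)).comp e0) hg with he
  have hee : ∀ F : Pk k, e (algebraMap (Pk k) (R2 k) F) =
      algebraMap (PowerSeries L) (LaurentSeries L) (e0 F) := fun F =>
    IsLocalization.Away.lift_eq _ _ _
  have hXX : algebraMap (PowerSeries L) (LaurentSeries L) PowerSeries.X =
      HahnSeries.single 1 1 := by
    simp
  have hCC : ∀ c : L, algebraMap (PowerSeries L) (LaurentSeries L) (PowerSeries.C c) =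
      HahnSeries.C c := by
    intro c
    simp
  have hmapC : ∀ F : PowerSeries k, e0 (PowerSeries.map Polynomial.C F) =
      PowerSeries.map ι F := by
    intro F
    rw [he0, RingHom.comp_apply, homE2_ext_map]
    have h1 : (homE2_phi k a).comp Polynomial.C =
        (PowerSeries.C).comp (PowerSeries.C : k →+* PowerSeries k) := by
      ext c : 1
      simp [homE2_phi]
    rw [h1, homE2_ext_C_comp, homE2_ext_map]
    have h2 : (homE2_psi ι y).comp (PowerSeries.C : k →+* PowerSeries k) =
        (PowerSeries.C).comp ι := by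
      ext c : 1
      exact homE2_psi_C ι y c
    rw [h2, homE2_ext_C_comp]
  refine ⟨e, ?_, ?_, ?_, ?_⟩
  · rw [injective_iff_map_eq_zero]
    intro z hz
    obtain ⟨F, s, rfl⟩ := IsLocalization.exists_mk'_eq
      (Submonoid.powers (PowerSeries.X * PowerSeries.C Polynomial.X : Pk k)) z
    have h1 := IsLocalization.mk'_spec (R2 k) F s
    have h2 := congrArg e h1
    rw [map_mul, hz, zero_mul, hee] at h2
    have h3 : Function.Injective (algebraMap (PowerSeries L) (LaurentSeries L)) :=
      IsFractionRing.injective _ _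
    have h4 := he0inj ((h3 (h2.symm.trans (map_zero _).symm)).trans (map_zero _).symm)
    rw [h4, IsLocalization.mk'_zero]
  · apply IsLocalization.ringHom_ext (Submonoid.powers (PowerSeries.X : PowerSeries k))
    ext F : 1
    rw [RingHom.comp_apply, RingHom.comp_apply, RingHom.comp_apply, c2, lK_algebraMap, lm,
      lK_algebraMap, RingHom.comp_apply, RingHom.comp_apply, hee, hmapC]
  · have h1 := congrArg (algebraMap (PowerSeries L) (LaurentSeries L)) hw
    rw [map_mul, map_add, map_one, map_mul, map_pow, map_pow, hXX, hCC] at h1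
    rw [w2, hee]
    exact h1
  · intro δ hδ hδy
    apply IsLocalization.ringHom_ext
      (Submonoid.powers (PowerSeries.X * PowerSeries.C Polynomial.X : Pk k))
    ext F : 1
    rw [RingHom.comp_apply, RingHom.comp_apply, RingHom.comp_apply, hee, lm, lK_algebraMap,
      RingHom.comp_apply]
    congr 1
    rw [he0, RingHom.comp_apply, homE2_map_ext]
    congr 2
    ext f s
    rw [RingHom.comp_apply, PowerSeries.coeff_map, homE2_coeff_psi]
    split_ifs
    · rw [map_mul, map_pow, hδy, ← RingHom.comp_apply, hδ]
    · exact map_zero _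

end Pool.Agent.Helper54.FP
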